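import Mathlib
import Pool.Agent.H94.Stab.Defs

/-!
Basic tools for M9 (MP_de3e90_an): continuity and integrability of the quantities in `BadSeq`,
bump functions.
-/

set_option autoImplicit false

open MeasureTheory Set Filter Topology
open scoped ContDiff

namespace Pool.Agent.H94.Stab.M9

variable {n : ℕ}

lemma continuous_pd {g : E n → ℝ} (hg : ContDiff ℝ 1 g) (i : Fin n) : Continuous (pd i g) := by
  unfold pd
  exact (hg.continuous_fderiv (by norm_num)).clm_apply continuous_const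

lemma continuous_gsq {g : E n → ℝ} (hg : ContDiff ℝ 1 g) : Continuous (gsq g) := by
  unfold gsq
  exact continuous_finsetSum _ fun i _ => (continuous_pd hg i).pow 2

lemma gsq_nonneg (g : E n → ℝ) (x : E n) : 0 ≤ gsq g x :=
  Finset.sum_nonneg fun _ _ => sq_nonneg _

lemma continuous_cc {g : E n → ℝ} (hg : ContDiff ℝ 1 g) : Continuous (cc g) := by
  unfold cc
  refine continuous_finsetSum _ fun i _ => Continuous.mul ?_ (continuous_pd hg i)
  exact (EuclideanSpace.proj (𝕜 := ℝ) i).continuous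

/-- the closed annulus -/
def CA (n : ℕ) (R : ℝ) : Set (E n) := {x | Real.exp (-R) ≤ ‖x‖ ∧ ‖x‖ ≤ Real.exp R}

lemma isCompact_CA (R : ℝ) : IsCompact (CA n R) := by
  refine (isCompact_closedBall (0 : E n) (Real.exp R)).of_isClosed_subset ?_ ?_
  · exact (isClosed_le continuous_const continuous_norm).inter
      (isClosed_le continuous_norm continuous_const)
  · intro x hx
    simpa using hx.2

lemma CA_ne_zero {R : ℝ} {x : E n} (hx : x ∈ CA n R) : x ≠ 0 := by
  intro h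
  have := hx.1
  rw [h, norm_zero] at this
  exact absurd this (not_le.2 (Real.exp_pos _))

lemma zero_notMem_CA (R : ℝ) : (0 : E n) ∉ CA n R := fun h => CA_ne_zero h rfl

lemma CA_mono {R R' : ℝ} (h : R ≤ R') : CA n R ⊆ CA n R' := by
  intro x hx
  exact ⟨(Real.exp_le_exp.2 (by linarith)).trans hx.1, hx.2.trans (Real.exp_le_exp.2 h)⟩

lemma CA_subset_Ann {R k : ℝ} (h : R < k) : CA n R ⊆ Ann n k := by
  intro x hx
  exact ⟨lt_of_lt_of_le (Real.exp_lt_exp.2 (by linarith)) hx.1,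
    lt_of_le_of_lt hx.2 (Real.exp_lt_exp.2 h)⟩

lemma log_mem_of_mem_CA {R : ℝ} {x : E n} (hx : x ∈ CA n R) :
    -R ≤ Real.log ‖x‖ ∧ Real.log ‖x‖ ≤ R := by
  have hpos : 0 < ‖x‖ := norm_pos_iff.2 (CA_ne_zero hx)
  exact ⟨(Real.le_log_iff_exp_le hpos).2 hx.1, (Real.log_le_iff_le_exp hpos).2 hx.2⟩

lemma mem_CA_iff {R : ℝ} {x : E n} (hx : x ≠ 0) :
    x ∈ CA n R ↔ -R ≤ Real.log ‖x‖ ∧ Real.log ‖x‖ ≤ R := by
  have hpos : 0 < ‖x‖ := norm_pos_iff.2 hx
  refine ⟨log_mem_of_mem_CA, fun h => ?_⟩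
  exact ⟨(Real.le_log_iff_exp_le hpos).1 h.1, (Real.log_le_iff_le_exp hpos).1 h.2⟩

/-- a compact set avoiding the origin lies in a closed annulus -/
lemma exists_CA {K : Set (E n)} (hK : IsCompact K) (h0 : (0 : E n) ∉ K) :
    ∃ R : ℝ, 1 ≤ R ∧ K ⊆ CA n R := by
  obtain ⟨r1, hr1, h1⟩ : ∃ r > 0, ∀ x ∈ K, r ≤ ‖x‖ := by
    have h : Kᶜ ∈ 𝓝 (0 : E n) := hK.isClosed.isOpen_compl.mem_nhds h0
    obtain ⟨r, hr, hb⟩ := Metric.mem_nhds_iff.1 h
    refine ⟨r, hr, fun x hx => ?_⟩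
    by_contra hlt
    exact hb (by simpa using not_le.1 hlt) hx
  obtain ⟨r2, h2⟩ := hK.isBounded.exists_norm_le
  refine ⟨max 1 (max (-Real.log r1) (Real.log (max r2 1))), le_max_left _ _, fun x hx => ?_⟩
  have hx0 : x ≠ 0 := fun h => h0 (h ▸ hx)
  have hpos : 0 < ‖x‖ := norm_pos_iff.2 hx0
  rw [mem_CA_iff hx0]
  constructor
  · have ha : Real.log r1 ≤ Real.log ‖x‖ := Real.log_le_log hr1 (h1 x hx)
    have hb : -Real.log r1 ≤ max 1 (max (-Real.log r1) (Real.log (max r2 1))) :=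
      (le_max_left _ _).trans (le_max_right _ _)
    linarith
  · have ha : Real.log ‖x‖ ≤ Real.log (max r2 1) :=
      Real.log_le_log hpos ((h2 x hx).trans (le_max_left _ _))
    exact ha.trans ((le_max_right _ _).trans (le_max_right _ _))

/-- smooth function on the line, `1` on `[-R, R]`, values in `[0,1]`, support in `[-(R+1), R+1]` -/
lemma exists_bump1 (R : ℝ) (hR : 0 < R) : ∃ ψ : ℝ → ℝ, Bump1 ψ ∧ (∀ t, 0 ≤ ψ t) ∧
    (∀ t, -R ≤ t → t ≤ R → ψ t = 1) ∧ tsupport ψ ⊆ Icc (-(R + 1)) (R + 1) := by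
  let b : ContDiffBump (0 : ℝ) := ⟨R, R + 1, hR, by linarith⟩
  refine ⟨b, ⟨b.contDiff, b.hasCompactSupport⟩, fun t => b.nonneg, fun t h1 h2 => ?_, ?_⟩
  · apply b.one_of_mem_closedBall
    simpa [abs_le] using ⟨h1, h2⟩
  · rw [b.tsupport_eq, Real.closedBall_eq_Icc, zero_sub, zero_add]

/-- integrability of `h(x) |x|^p ψ(log|x|)` -/
lemma integrable_radial {h : E n → ℝ} (hh : Continuous h) {p : ℝ} (hp : p ≠ 0) {ψ : ℝ → ℝ}
    (hψ : Continuous ψ) (hs : HasCompactSupport ψ) :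
    Integrable (fun x : E n => h x * ‖x‖ ^ p * ψ (Real.log ‖x‖)) := by
  obtain ⟨R, hR⟩ : ∃ R : ℝ, ∀ t, ψ t ≠ 0 → |t| ≤ R := by
    obtain ⟨R, hR⟩ := hs.isBounded.exists_norm_le
    exact ⟨R, fun t ht => by simpa using hR t (subset_tsupport _ ht)⟩
  refine IntegrableOn.integrable_of_forall_notMem_eq_zero (s := CA n R) ?_ ?_
  · refine ContinuousOn.integrableOn_compact (isCompact_CA R) ?_
    intro x hx
    have hx0 := CA_ne_zero hx
    have hpos : ‖x‖ ≠ 0 := (norm_pos_iff.2 hx0).ne'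
    refine ContinuousAt.continuousWithinAt ?_
    refine ContinuousAt.mul (ContinuousAt.mul hh.continuousAt ?_) ?_
    · exact ContinuousAt.rpow_const continuous_norm.continuousAt (Or.inl hpos)
    · exact hψ.continuousAt.comp (ContinuousAt.log continuous_norm.continuousAt hpos)
  · intro x hx
    by_cases hx0 : x = 0
    · rw [hx0, norm_zero, Real.zero_rpow hp]; ring
    · have : ψ (Real.log ‖x‖) = 0 := by
        by_contra hne
        exact hx ((mem_CA_iff hx0).2 (abs_le.1 (hR _ hne)))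
      rw [this, mul_zero]

/-- comparison of an integral over a subset of an annulus with the radial weight -/
lemma setIntegral_le_radial {h : E n → ℝ} (hh : Continuous h) (h0 : ∀ x, 0 ≤ h x) {p : ℝ}
    (hp : p < 0) {ψ : ℝ → ℝ} (hψ : Continuous ψ) (hs : HasCompactSupport ψ)
    (hψ0 : ∀ t, 0 ≤ ψ t) {R : ℝ} (hψ1 : ∀ t, -R ≤ t → t ≤ R → ψ t = 1) {K : Set (E n)}
    (hK : IsCompact K) (hKR : K ⊆ CA n R) :
    ∫ x in K, h x ≤ Real.exp R ^ (-p) *
      ∫ x : E n, h x * ‖x‖ ^ p * ψ (Real.log ‖x‖) := by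
  have hint := integrable_radial hh hp.ne hψ hs (n := n)
  have hnn : ∀ x : E n, 0 ≤ h x * ‖x‖ ^ p * ψ (Real.log ‖x‖) := fun x =>
    mul_nonneg (mul_nonneg (h0 x) (Real.rpow_nonneg (norm_nonneg _) _)) (hψ0 _)
  rw [← integral_const_mul]
  calc ∫ x in K, h x ≤ ∫ x in K, Real.exp R ^ (-p) * (h x * ‖x‖ ^ p * ψ (Real.log ‖x‖)) := by
        refine setIntegral_mono_on (hh.continuousOn.integrableOn_compact hK)
          (hint.const_mul _).integrableOn hK.measurableSet fun x hx => ?_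
        have hxR := hKR hx
        have hpos : 0 < ‖x‖ := norm_pos_iff.2 (CA_ne_zero hxR)
        rw [hψ1 _ (log_mem_of_mem_CA hxR).1 (log_mem_of_mem_CA hxR).2, mul_one]
        have h1 : 1 ≤ Real.exp R ^ (-p) * ‖x‖ ^ p := by
          have h2 : ‖x‖ ^ (-p) ≤ Real.exp R ^ (-p) :=
            Real.rpow_le_rpow (norm_nonneg _) hxR.2 (by linarith)
          have h3 : ‖x‖ ^ (-p) * ‖x‖ ^ p = 1 := by
            rw [← Real.rpow_add hpos]; simp
          calc (1 : ℝ) = ‖x‖ ^ (-p) * ‖x‖ ^ p := h3.symm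
            _ ≤ _ := mul_le_mul_of_nonneg_right h2 (Real.rpow_nonneg (norm_nonneg _) _)
        calc h x = 1 * h x := (one_mul _).symm
          _ ≤ (Real.exp R ^ (-p) * ‖x‖ ^ p) * h x := mul_le_mul_of_nonneg_right h1 (h0 x)
          _ = _ := by ring
    _ ≤ ∫ x : E n, Real.exp R ^ (-p) * (h x * ‖x‖ ^ p * ψ (Real.log ‖x‖)) := by
        refine setIntegral_le_integral (hint.const_mul _) (Filter.Eventually.of_forall fun x => ?_)
        exact mul_nonneg (Real.rpow_nonneg (Real.exp_pos _).le _) (hnn x)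

/-- a test function equal to one on a closed annulus -/
lemma exists_cutoff (R : ℝ) (hR : 0 < R) : ∃ η : E n → ℝ, Test (CA n (R + 1)) η ∧
    (∀ x ∈ CA n R, η x = 1) ∧ (∀ x, 0 ≤ η x) := by
  set A : ℝ := Real.exp (-R) ^ 2 with hA
  set B : ℝ := Real.exp R ^ 2 with hB
  have hApos : 0 < A := by positivity
  have hAB : A < B := by
    have h1 : Real.exp (-R) < Real.exp R := Real.exp_lt_exp.2 (by linarith)
    exact pow_lt_pow_left₀ h1 (Real.exp_pos _).le (by norm_num)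
  let b : ContDiffBump ((A + B) / 2 : ℝ) := ⟨(B - A) / 2, (B - A) / 2 + A / 2, by linarith,
    by linarith⟩
  have he : (2 : ℝ) ≤ Real.exp 1 := by linarith [Real.add_one_le_exp (1 : ℝ)]
  have hsub : Function.support (fun x : E n => b (‖x‖ ^ 2)) ⊆ CA n (R + 1) := by
    intro x hx
    have h1 : ‖x‖ ^ 2 ∈ tsupport b := subset_tsupport _ hx
    rw [b.tsupport_eq, Real.closedBall_eq_Icc] at h1
    obtain ⟨h1, h2⟩ := h1
    have h3 : A / 2 ≤ ‖x‖ ^ 2 := by
      have : (A + B) / 2 - ((B - A) / 2 + A / 2) = A / 2 := by ring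
      have h1' : (A + B) / 2 - ((B - A) / 2 + A / 2) ≤ ‖x‖ ^ 2 := h1
      linarith
    have h4 : ‖x‖ ^ 2 ≤ B + A / 2 := by
      have : (A + B) / 2 + ((B - A) / 2 + A / 2) = B + A / 2 := by ring
      have h2' : ‖x‖ ^ 2 ≤ (A + B) / 2 + ((B - A) / 2 + A / 2) := h2
      linarith
    constructor
    · apply le_of_sq_le_sq _ (norm_nonneg x)
      refine le_trans ?_ h3
      have : Real.exp (-(R + 1)) = Real.exp (-R) / Real.exp 1 := by
        rw [← Real.exp_sub]; congr 1; ring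
      rw [this, div_pow, ← hA]
      have : (2 : ℝ) ≤ Real.exp 1 ^ 2 := by nlinarith
      gcongr
    · apply le_of_sq_le_sq _ (Real.exp_pos _).le
      refine h4.trans ?_
      rw [Real.exp_add, mul_pow, ← hB]
      have : (2 : ℝ) ≤ Real.exp 1 ^ 2 := by nlinarith
      nlinarith
  have hcont : ContDiff ℝ ∞ (fun x : E n => b (‖x‖ ^ 2)) :=
    b.contDiff.comp (contDiff_norm_sq ℝ)
  refine ⟨fun x => b (‖x‖ ^ 2), ⟨hcont, ?_, ?_⟩, ?_, fun x => b.nonneg⟩
  · exact HasCompactSupport.of_support_subset_isCompact (isCompact_CA (R + 1)) hsub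
  · exact closure_minimal hsub (isCompact_CA _).isClosed
  · intro x hx
    apply b.one_of_mem_closedBall
    rw [Real.closedBall_eq_Icc]
    have h1 : A ≤ ‖x‖ ^ 2 := pow_le_pow_left₀ (Real.exp_pos _).le hx.1 2
    have h2 : ‖x‖ ^ 2 ≤ B := pow_le_pow_left₀ (norm_nonneg _) hx.2 2
    constructor
    · show (A + B) / 2 - (B - A) / 2 ≤ ‖x‖ ^ 2
      linarith
    · show ‖x‖ ^ 2 ≤ (A + B) / 2 + (B - A) / 2
      linarith

lemma contDiff_pd {g : E n → ℝ} (hg : ContDiff ℝ ∞ g) (i : Fin n) : ContDiff ℝ ∞ (pd i g) := by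
  unfold pd
  exact (hg.fderiv_right (m := ∞) (by exact_mod_cast le_top)).clm_apply contDiff_const

lemma one_of_infty {g : E n → ℝ} (hg : ContDiff ℝ ∞ g) : ContDiff ℝ 1 g :=
  hg.of_le (by exact_mod_cast le_top)

lemma abs_nu_le (g : E n → ℝ) (i : Fin n) (x : E n) : |nu g i x| ≤ 1 := by
  unfold nu gr
  rw [abs_div, abs_of_nonneg (Real.sqrt_nonneg _)]
  refine div_le_one_of_le₀ ?_ (Real.sqrt_nonneg _)
  rw [← Real.sqrt_sq_eq_abs]
  refine Real.sqrt_le_sqrt ?_
  exact Finset.single_le_sum (f := fun i => pd i g x ^ 2) (fun _ _ => sq_nonneg _)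
    (Finset.mem_univ i)

lemma measurable_nu {g : E n → ℝ} (hg : ContDiff ℝ 1 g) (i : Fin n) : Measurable (nu g i) := by
  unfold nu gr
  exact (continuous_pd hg i).measurable.div (continuous_gsq hg).measurable.sqrt

lemma measurable_Wt {g : E n → ℝ} (hg : ContDiff ℝ ∞ g) {f : ℝ → ℝ} (hf : Continuous f)
    (i j : Fin n) : Measurable (Wt f g i j) := by
  unfold Wt
  refine Measurable.add ?_ ?_
  · exact (continuous_pd (one_of_infty (contDiff_pd hg j)) i).measurable
  · exact ((hf.comp hg.continuous).measurable.mul (measurable_nu (one_of_infty hg) i)).mul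
      (measurable_nu (one_of_infty hg) j)

lemma Wt_sq_le {g : E n → ℝ} {f : ℝ → ℝ} (i j : Fin n) (x : E n) :
    Wt f g i j x ^ 2 ≤ 2 * pd i (pd j g) x ^ 2 + 2 * f (g x) ^ 2 := by
  unfold Wt
  have h1 : (f (g x) * nu g i x * nu g j x) ^ 2 ≤ f (g x) ^ 2 := by
    rw [mul_pow, mul_pow]
    have h2 : nu g i x ^ 2 ≤ 1 := by
      rw [← sq_abs]; exact pow_le_one₀ (abs_nonneg _) (abs_nu_le _ _ _)
    have h3 : nu g j x ^ 2 ≤ 1 := by
      rw [← sq_abs]; exact pow_le_one₀ (abs_nonneg _) (abs_nu_le _ _ _)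
    calc f (g x) ^ 2 * nu g i x ^ 2 * nu g j x ^ 2 ≤ f (g x) ^ 2 * 1 * 1 := by
          gcongr
      _ = _ := by ring
  nlinarith [sq_nonneg (pd i (pd j g) x - f (g x) * nu g i x * nu g j x)]

lemma Wsq_nonneg (f : ℝ → ℝ) (g : E n → ℝ) (x : E n) : 0 ≤ Wsq f g x :=
  Finset.sum_nonneg fun _ _ => Finset.sum_nonneg fun _ _ => sq_nonneg _

lemma measurable_Wsq {g : E n → ℝ} (hg : ContDiff ℝ ∞ g) {f : ℝ → ℝ} (hf : Continuous f) :
    Measurable (Wsq f g) := by
  unfold Wsq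
  exact Finset.measurable_sum _ fun i _ => Finset.measurable_sum _ fun j _ =>
    (measurable_Wt hg hf i j).pow_const 2

/-- integrability of `|W|² φ` for continuous compactly supported `φ` -/
lemma integrable_Wsq_mul {g : E n → ℝ} (hg : ContDiff ℝ ∞ g) {f : ℝ → ℝ} (hf : Continuous f)
    {φ : E n → ℝ} (hφ : Continuous φ) (hc : HasCompactSupport φ) :
    Integrable (fun x => Wsq f g x * φ x) := by
  have h1 : Integrable (fun x => (∑ i, ∑ j, (2 * pd i (pd j g) x ^ 2 + 2 * f (g x) ^ 2)) *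
      |φ x|) := by
    refine Continuous.integrable_of_hasCompactSupport ?_ ?_
    · refine Continuous.mul ?_ hφ.abs
      refine continuous_finsetSum _ fun i _ => continuous_finsetSum _ fun j _ => ?_
      exact (continuous_const.mul ((continuous_pd (one_of_infty (contDiff_pd hg j)) i).pow 2)).add
        (continuous_const.mul ((hf.comp hg.continuous).pow 2))
    · exact (hc.comp_left (g := fun t : ℝ => |t|) abs_zero).mul_left
  refine h1.mono' ?_ (Filter.Eventually.of_forall fun x => ?_)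
  · exact ((measurable_Wsq hg hf).mul hφ.measurable).aestronglyMeasurable
  · rw [Real.norm_eq_abs, abs_mul, abs_of_nonneg (Wsq_nonneg _ _ _)]
    refine mul_le_mul_of_nonneg_right ?_ (abs_nonneg _)
    exact Finset.sum_le_sum fun i _ => Finset.sum_le_sum fun j _ => Wt_sq_le i j x

end Pool.Agent.H94.Stab.M9
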