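import Mathlib
import Pool.Agent.H94.Stab.Defs
import Pool.Agent.H87.Stab.Base
import Pool.Agent.H62.Stab.M1
import Pool.Agent.H62.Stab.M3
import Pool.Agent.H46.Stab.M2

/-!
M9 (MP_de3e90_an): first consequences for bad sequences.
-/

set_option autoImplicit false

open MeasureTheory Set Filter Topology
open scoped ContDiff

namespace Pool.Agent.H94.Stab

variable {n : ℕ} {u : ℕ → E n → ℝ} {f F : ℕ → ℝ → ℝ}

namespace M9

lemma smooth1 (h : BadSeq u f F) (k : ℕ) : ContDiff ℝ 1 (u k) :=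
  (h.st k).smooth.of_le (by exact_mod_cast le_top)

end M9

open M9

theorem b_energy (hn : 3 ≤ n) (h : BadSeq u f F) {K : Set (E n)} (hK : IsCompact K)
    (h0 : (0 : E n) ∉ K) : ∃ C : ℝ, ∀ᶠ k in atTop, ∫ x in K, gsq (u k) x ≤ C := by
  obtain ⟨R, hR, hKR⟩ := exists_CA hK h0
  obtain ⟨ψ, hψ, hψ0, hψ1, -⟩ := exists_bump1 R (by linarith)
  refine ⟨Real.exp R ^ (-(2 - (n : ℝ))) * ((∫ t, ψ t) + 1), ?_⟩
  have hlim := h.D1 ψ hψ
  filter_upwards [hlim.eventually (gt_mem_nhds (lt_add_one (∫ t, ψ t)))] with k hk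
  have hn' : (3 : ℝ) ≤ n := by exact_mod_cast hn
  have h1 := setIntegral_le_radial (continuous_gsq (smooth1 h k)) (gsq_nonneg (u k))
    (p := 2 - (n : ℝ)) (by linarith) hψ.1.continuous hψ.2 hψ0 hψ1 hK hKR
  refine h1.trans ?_
  exact mul_le_mul_of_nonneg_left hk.le (Real.rpow_nonneg (Real.exp_pos _).le _)

theorem b_c (hn : 3 ≤ n) (h : BadSeq u f F) {K : Set (E n)} (hK : IsCompact K)
    (h0 : (0 : E n) ∉ K) : Tendsto (fun k => ∫ x in K, (cc (u k) x) ^ 2) atTop (𝓝 0) := by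
  obtain ⟨R, hR, hKR⟩ := exists_CA hK h0
  obtain ⟨ψ, hψ, hψ0, hψ1, -⟩ := exists_bump1 R (by linarith)
  have hlim := (h.R0 ψ hψ).const_mul (Real.exp R ^ (-(-(n : ℝ))))
  rw [mul_zero] at hlim
  refine squeeze_zero (fun k => ?_) (fun k => ?_) hlim
  · exact setIntegral_nonneg hK.measurableSet fun x _ => sq_nonneg _
  · have hn' : (3 : ℝ) ≤ n := by exact_mod_cast hn
    exact setIntegral_le_radial ((continuous_cc (smooth1 h k)).pow 2) (fun x => sq_nonneg _)
      (p := -(n : ℝ)) (by linarith) hψ.1.continuous hψ.2 hψ0 hψ1 hK hKR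

lemma M9.gsq_eq_zero {a : E n → ℝ} {x : E n} (hx : x ∉ tsupport a) : gsq a x = 0 := by
  unfold gsq pd
  refine Finset.sum_eq_zero fun i _ => ?_
  rw [fderiv_of_notMem_tsupport ℝ hx]
  simp

lemma M9.stable_mono {Ω Ω' : Set (E n)} {f F : ℝ → ℝ} {u : E n → ℝ} (h : Stable Ω f F u)
    (ho : IsOpen Ω') (hsub : Ω' ⊆ Ω) : Stable Ω' f F u :=
  ⟨ho, h.smooth, h.f_C1, h.F_deriv, fun x hx => h.eqn x (hsub hx),
    fun ξ hξ => h.stab ξ ⟨hξ.smooth, hξ.compact, hξ.sub.trans hsub⟩⟩

/-- integrals of `gsq u * gsq a` -/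
lemma M9.integral_gsq_le {v a : E n → ℝ} (hv : ContDiff ℝ 1 v) {K : Set (E n)}
    (hK : IsCompact K) (haK : tsupport a ⊆ K) {M : ℝ}
    (ha : ContDiff ℝ 1 a) (hM : ∀ x, gsq a x ≤ M) :
    ∫ x, gsq v x * gsq a x ≤ M * ∫ x in K, gsq v x := by
  have h1 : ∫ x, gsq v x * gsq a x = ∫ x in K, gsq v x * gsq a x := by
    refine (setIntegral_eq_integral_of_forall_compl_eq_zero fun x hx => ?_).symm
    rw [gsq_eq_zero (fun h => hx (haK h)), mul_zero]
  rw [h1, ← integral_const_mul]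
  refine setIntegral_mono_on ?_ ?_ hK.measurableSet fun x _ => ?_
  · exact (((continuous_gsq hv).mul (continuous_gsq ha)).continuousOn).integrableOn_compact hK
  · exact ((continuous_const.mul (continuous_gsq hv)).continuousOn).integrableOn_compact hK
  · rw [mul_comm]
    exact mul_le_mul_of_nonneg_right (hM x) (gsq_nonneg _ _)

lemma M9.exists_gsq_bound {a : E n → ℝ} (ha : ContDiff ℝ 1 a) (hc : HasCompactSupport a) :
    ∃ M : ℝ, 0 ≤ M ∧ ∀ x, gsq a x ≤ M := by
  obtain ⟨M, hM⟩ := hc.exists_bound_of_continuousOn (f := gsq a)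
    (continuous_gsq ha).continuousOn
  refine ⟨max M 0, le_max_right _ _, fun x => ?_⟩
  by_cases hx : x ∈ tsupport a
  · exact ((le_abs_self _).trans (hM x hx)).trans (le_max_left _ _)
  · rw [gsq_eq_zero hx]; exact le_max_right _ _

theorem b_W (hn : 3 ≤ n) (h : BadSeq u f F) {K : Set (E n)} (hK : IsCompact K)
    (h0 : (0 : E n) ∉ K) : ∃ C : ℝ, ∀ᶠ k in atTop, ∫ x in K, Wsq (f k) (u k) x ≤ C := by
  obtain ⟨R, hR, hKR⟩ := exists_CA hK h0
  obtain ⟨η, hη, hη1, hη0⟩ := exists_cutoff (n := n) R (by linarith)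
  obtain ⟨C, hC⟩ := b_energy hn h (isCompact_CA (n := n) (R + 1)) (zero_notMem_CA _)
  have hη1' : ContDiff ℝ 1 η := hη.smooth.of_le (by exact_mod_cast le_top)
  obtain ⟨M, hM0, hM⟩ := exists_gsq_bound hη1' hη.compact
  refine ⟨(n + 2) * (M * C), ?_⟩
  filter_upwards [hC, eventually_gt_atTop ⌈R + 1⌉₊] with k hk hkR
  have hkR' : R + 1 < k := lt_of_le_of_lt (Nat.le_ceil _) (by exact_mod_cast hkR)
  have hη' : Test (Ann n k) η := ⟨hη.smooth, hη.compact, hη.sub.trans (CA_subset_Ann hkR')⟩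
  have h1 := sz (h.st k) hη'
  have h2 : ∫ x, gsq (u k) x * gsq η x ≤ M * ∫ x in CA n (R + 1), gsq (u k) x :=
    integral_gsq_le (smooth1 h k) (isCompact_CA _) hη.sub hη1' hM
  have h3 : ∫ x in K, Wsq (f k) (u k) x ≤ ∫ x, Wsq (f k) (u k) x * η x ^ 2 := by
    have hint := M9.integrable_Wsq_mul (h.st k).smooth (h.st k).f_C1.continuous
      (hη.smooth.continuous.pow 2) (φ := fun x => η x ^ 2)
      (hη.compact.comp_left (g := fun t : ℝ => t ^ 2) (by simp))
    have hnn : ∀ x, 0 ≤ Wsq (f k) (u k) x * η x ^ 2 := fun x =>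
      mul_nonneg (Wsq_nonneg _ _ _) (sq_nonneg _)
    calc ∫ x in K, Wsq (f k) (u k) x = ∫ x in K, Wsq (f k) (u k) x * η x ^ 2 := by
          refine setIntegral_congr_fun hK.measurableSet fun x hx => ?_
          rw [hη1 x (hKR hx)]; ring
      _ ≤ _ := setIntegral_le_integral hint (Filter.Eventually.of_forall hnn)
  refine h3.trans (h1.trans ?_)
  refine mul_le_mul_of_nonneg_left (h2.trans ?_) (by positivity)
  exact mul_le_mul_of_nonneg_left hk hM0

theorem b_cubic (hn : 3 ≤ n) (h : BadSeq u f F) {K : Set (E n)} (hK : IsCompact K)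
    (h0 : (0 : E n) ∉ K) : ∃ ε : ℕ → ℝ, Tendsto ε atTop (𝓝 0) ∧ ∀ᶠ k in atTop,
      ∀ (i j l : Fin n) (a : E n → ℝ) (M : ℝ), Test {0}ᶜ a → tsupport a ⊆ K → 0 ≤ M →
        (∀ x, gsq a x ≤ M ^ 2) →
        |∫ x, f k (u k x) * gr (u k) x * nu (u k) i x * nu (u k) j x * nu (u k) l x * a x|
          ≤ ε k * M := by
  obtain ⟨R, hR, hKR⟩ := exists_CA hK h0
  obtain ⟨ψ, hψ, hψ0, hψ1, hψs⟩ := exists_bump1 (R + 1) (by linarith)
  obtain ⟨C, hC⟩ := b_energy hn h hK h0
  set m : ℝ := ((n : ℝ) - 2) / 2 with hm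
  set g : ℝ → ℝ := fun t => Real.exp (m * t) * ψ t with hg
  have hgs : ContDiff ℝ ∞ g :=
    (Real.contDiff_exp.comp (contDiff_const.mul contDiff_id)).mul hψ.1
  have hgc : HasCompactSupport g := hψ.2.mul_left
  have hgB : Bump1 g := ⟨hgs, hgc⟩
  have hgt : tsupport g ⊆ Icc (-(R + 1 + 1)) (R + 1 + 1) := by
    refine (closure_mono fun t ht => ?_).trans hψs
    exact fun h => ht (by simp [hg, h])
  have hdg : ContDiff ℝ ∞ (deriv g) := by
    exact (contDiff_infty_iff_deriv.1 hgs).2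
  have hdc : HasCompactSupport (deriv g) := hgc.deriv
  have hsub : ∀ k : ℕ, R + 1 + 1 < k → ∀ x : E n, x ≠ 0 → Real.log ‖x‖ ∈ tsupport g →
      x ∈ Ann n k := by
    intro k hk x hx hlog
    exact CA_subset_Ann hk ((mem_CA_iff hx).2 (hgt hlog))
  set Q : ℕ → ℝ := fun k => Qf (f k) (u k) (ceta (u k) g) with hQ
  have hQlim : Tendsto Q atTop (𝓝 0) := by
    set φ₁ : ℝ → ℝ := fun t => deriv g t ^ 2 + (6 - (n : ℝ)) * g t * deriv g t
        - ((n : ℝ) - 2) / 2 * (4 - ((n : ℝ) - 2) / 2) * g t ^ 2 with hφ₁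
    set φ₂ : ℝ → ℝ := fun t => 2 * g t * deriv g t with hφ₂
    have hB1 : Bump1 φ₁ := by
      constructor
      · exact ((hdg.pow 2).add ((contDiff_const.mul hgs).mul hdg)).sub
          (contDiff_const.mul (hgs.pow 2))
      · refine HasCompactSupport.intro hgc fun t ht => ?_
        have h1 : g t = 0 := image_eq_zero_of_notMem_tsupport ht
        have h2 : deriv g t = 0 := by
          by_contra hne
          exact ht (support_deriv_subset hne)
        simp [hφ₁, h1, h2]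
    have hB2 : Bump1 φ₂ := by
      refine ⟨(contDiff_const.mul hgs).mul hdg, ?_⟩
      exact hdc.mul_left
    have hz : ∫ t, φ₂ t = 0 := by
      refine integral_eq_zero_of_hasDerivAt_of_integrable (f := fun t => g t ^ 2) (fun t => ?_) ?_ ?_
      · have := ((hgs.differentiable (by simp)) t).hasDerivAt.pow 2
        simp only [hφ₂]
        refine HasDerivAt.congr_deriv this ?_
        simp
      · exact hB2.1.continuous.integrable_of_hasCompactSupport hB2.2
      · have hc2 : HasCompactSupport (fun t => g t ^ 2) :=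
          hgc.comp_left (g := fun t : ℝ => t ^ 2) (by simp)
        have hcc : Continuous (fun t => g t ^ 2) := hgs.continuous.pow 2
        exact hcc.integrable_of_hasCompactSupport hc2
    have h1 := (h.R0 φ₁ hB1).sub (h.D1 φ₂ hB2)
    rw [hz, sub_zero] at h1
    refine h1.congr' ?_
    filter_upwards [eventually_gt_atTop ⌈R + 1 + 1⌉₊] with k hk
    have hk' : R + 1 + 1 < k := lt_of_le_of_lt (Nat.le_ceil _) (by exact_mod_cast hk)
    exact (radial_identity hn (h.st k) hgB (hsub k hk')).symm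
  refine ⟨fun k => Real.sqrt (100 * n * |Q k| * |C|), ?_, ?_⟩
  · have h1 : Tendsto (fun k => Real.sqrt (100 * n * |Q k| * |C|)) atTop
        (𝓝 (Real.sqrt (100 * n * |(0 : ℝ)| * |C|))) :=
      Filter.Tendsto.sqrt ((tendsto_const_nhds.mul hQlim.abs).mul_const _)
    simpa using h1
  · filter_upwards [hC, eventually_gt_atTop ⌈R + 1 + 1⌉₊] with k hk hkR
    have hkR' : R + 1 + 1 < k := lt_of_le_of_lt (Nat.le_ceil _) (by exact_mod_cast hkR)
    intro i j l a M ha haK hM0 hM
    have ha1 : ContDiff ℝ 1 a := one_of_infty ha.smooth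
    have hKA : K ⊆ Ann n k := hKR.trans (CA_subset_Ann (by linarith))
    have haT : Test (Ann n k) a := ⟨ha.smooth, ha.compact, haK.trans hKA⟩
    have hξ : Test (Ann n k) (ceta (u k) g) := test_ceta hn (h.st k) hgB (hsub k hkR')
    have hnear : ∀ x ∈ tsupport a, ∀ᶠ y in 𝓝 x, ceta (u k) g y = cc (u k) y := by
      intro x hx
      have hxR := hKR (haK hx)
      have hopen : IsOpen {y : E n | Real.exp (-(R + 1)) < ‖y‖ ∧ ‖y‖ < Real.exp (R + 1)} :=
        (isOpen_lt continuous_const continuous_norm).inter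
          (isOpen_lt continuous_norm continuous_const)
      have hmem : x ∈ {y : E n | Real.exp (-(R + 1)) < ‖y‖ ∧ ‖y‖ < Real.exp (R + 1)} :=
        ⟨lt_of_lt_of_le (Real.exp_lt_exp.2 (by linarith)) hxR.1,
          lt_of_le_of_lt hxR.2 (Real.exp_lt_exp.2 (by linarith))⟩
      filter_upwards [hopen.mem_nhds hmem] with y hy
      have hyR : y ∈ CA n (R + 1) := ⟨hy.1.le, hy.2.le⟩
      have hypos : 0 < ‖y‖ := norm_pos_iff.2 (CA_ne_zero hyR)
      have hl := log_mem_of_mem_CA hyR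
      unfold ceta
      rw [← hm]
      simp only [hg]
      rw [hψ1 _ hl.1 hl.2, Real.rpow_def_of_pos hypos, mul_one, ← Real.exp_add]
      have : Real.log ‖y‖ * -m + m * Real.log ‖y‖ = 0 := by ring
      rw [this, Real.exp_zero, mul_one]
    have h1 := cubic (by omega) (h.st k) i j l hξ haT hnear
    have h2 := integral_gsq_le (smooth1 h k) hK haK ha1 hM
    have h3 : 0 ≤ ∫ x, gsq (u k) x * gsq a x :=
      integral_nonneg fun x => mul_nonneg (gsq_nonneg _ _) (gsq_nonneg _ _)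
    have h4 : ∫ x, gsq (u k) x * gsq a x ≤ M ^ 2 * |C| :=
      h2.trans (mul_le_mul_of_nonneg_left (hk.trans (le_abs_self C)) (sq_nonneg _))
    refine abs_le_of_sq_le_sq ?_ (mul_nonneg (Real.sqrt_nonneg _) hM0)
    rw [mul_pow, Real.sq_sqrt (by positivity)]
    refine h1.trans ?_
    calc 100 * (n : ℝ) * Qf (f k) (u k) (ceta (u k) g) * ∫ x, gsq (u k) x * gsq a x
        ≤ 100 * (n : ℝ) * |Q k| * ∫ x, gsq (u k) x * gsq a x := by
          refine mul_le_mul_of_nonneg_right ?_ h3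
          exact mul_le_mul_of_nonneg_left (le_abs_self _) (by positivity)
      _ ≤ 100 * (n : ℝ) * |Q k| * (M ^ 2 * |C|) :=
          mul_le_mul_of_nonneg_left h4 (by positivity)
      _ = _ := by ring

lemma M9.pd_eq_sum (v : E n → ℝ) (i : Fin n) (x : E n) :
    pd i v x = ∑ j, gr v x * nu v i x * nu v j x * nu v j x := by
  by_cases h : gr v x = 0
  · have h1 : gsq v x = 0 := by
      unfold gr at h
      exact (Real.sqrt_eq_zero (M9.gsq_nonneg v x)).1 h
    have h2 : pd i v x ^ 2 = 0 :=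
      (Finset.sum_eq_zero_iff_of_nonneg (fun i _ => sq_nonneg (pd i v x))).1 h1 i
        (Finset.mem_univ i)
    rw [h]
    simpa using h2
  · have h1 : ∑ j, nu v j x ^ 2 = 1 := by
      unfold nu
      simp only [div_pow]
      rw [← Finset.sum_div, gr, Real.sq_sqrt (M9.gsq_nonneg v x)]
      refine div_self fun h0 => h ?_
      change gsq v x = 0 at h0
      rw [gr, h0, Real.sqrt_zero]
    have h2 : gr v x * nu v i x = pd i v x := by
      unfold nu
      field_simp
    calc pd i v x = gr v x * nu v i x * ∑ j, nu v j x ^ 2 := by rw [h1, h2, mul_one]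
      _ = _ := by
        rw [Finset.mul_sum]
        exact Finset.sum_congr rfl fun j _ => by ring

lemma M9.integrable_cubic {v : E n → ℝ} (hv : ContDiff ℝ 1 v) {φ : ℝ → ℝ} (hφ : Continuous φ)
    {a : E n → ℝ} (ha : Continuous a) (hc : HasCompactSupport a) (i j l : Fin n) :
    Integrable (fun x => φ (v x) * gr v x * nu v i x * nu v j x * nu v l x * a x) := by
  have hgr : Continuous (gr v) := (M9.continuous_gsq hv).sqrt
  have h1 : Integrable (fun x => |φ (v x)| * |gr v x| * |a x|) := by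
    refine Continuous.integrable_of_hasCompactSupport ?_ ?_
    · exact (((hφ.comp hv.continuous).abs).mul hgr.abs).mul ha.abs
    · exact (hc.comp_left (g := fun t : ℝ => |t|) abs_zero).mul_left
  refine h1.mono' ?_ (Filter.Eventually.of_forall fun x => ?_)
  · exact ((((((hφ.comp hv.continuous).measurable.mul hgr.measurable).mul
      (M9.measurable_nu hv i)).mul (M9.measurable_nu hv j)).mul
      (M9.measurable_nu hv l)).mul ha.measurable).aestronglyMeasurable
  · rw [Real.norm_eq_abs, abs_mul, abs_mul, abs_mul, abs_mul, abs_mul]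
    refine mul_le_mul_of_nonneg_right ?_ (abs_nonneg _)
    have e1 := M9.abs_nu_le v i x
    have e2 := M9.abs_nu_le v j x
    have e3 := M9.abs_nu_le v l x
    calc |φ (v x)| * |gr v x| * |nu v i x| * |nu v j x| * |nu v l x|
        ≤ |φ (v x)| * |gr v x| * 1 * 1 * 1 := by gcongr
      _ = _ := by ring

theorem b_gradF (hn : 3 ≤ n) (h : BadSeq u f F) {K : Set (E n)} (hK : IsCompact K)
    (h0 : (0 : E n) ∉ K) : ∃ ε : ℕ → ℝ, Tendsto ε atTop (𝓝 0) ∧ ∀ᶠ k in atTop,
      ∀ (i : Fin n) (a : E n → ℝ) (M : ℝ), Test {0}ᶜ a → tsupport a ⊆ K → 0 ≤ M →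
        (∀ x, gsq a x ≤ M ^ 2) → |∫ x, F k (u k x) * pd i a x| ≤ ε k * M := by
  obtain ⟨ε, hε, hk⟩ := b_cubic hn h hK h0
  refine ⟨fun k => n * ε k, by simpa using hε.const_mul (n : ℝ), ?_⟩
  filter_upwards [hk] with k hk
  intro i a M ha haK hM0 hM
  have hu1 := smooth1 h k
  have hF1 : ContDiff ℝ 1 (fun x => F k (u k x)) := by
    have hFc : ContDiff ℝ 1 (F k) := by
      rw [contDiff_one_iff_deriv]
      refine ⟨fun s => ((h.st k).F_deriv s).differentiableAt, ?_⟩
      have : deriv (F k) = f k := funext fun s => ((h.st k).F_deriv s).deriv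
      rw [this]
      exact (h.st k).f_C1.continuous
    exact hFc.comp hu1
  rw [integral_mul_pd' i hF1 (one_of_infty ha.smooth) ha.compact, abs_neg]
  have hpt : ∀ x, pd i (fun y => F k (u k y)) x * a x
      = ∑ j, f k (u k x) * gr (u k) x * nu (u k) i x * nu (u k) j x * nu (u k) j x * a x := by
    intro x
    rw [pd_comp' i ((h.st k).F_deriv (u k x)) ((hu1.differentiable (by norm_num)) x)]
    conv_lhs => rw [M9.pd_eq_sum (u k) i x, Finset.mul_sum, Finset.sum_mul]
    exact Finset.sum_congr rfl fun j _ => by ring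
  simp_rw [hpt]
  rw [integral_finsetSum _ fun j _ => M9.integrable_cubic hu1 (h.st k).f_C1.continuous
    ha.smooth.continuous ha.compact i j j]
  calc |∑ j, ∫ x, f k (u k x) * gr (u k) x * nu (u k) i x * nu (u k) j x * nu (u k) j x * a x|
      ≤ ∑ j : Fin n, |∫ x, f k (u k x) * gr (u k) x * nu (u k) i x * nu (u k) j x *
          nu (u k) j x * a x| := Finset.abs_sum_le_sum_abs _ _
    _ ≤ ∑ _j : Fin n, ε k * M :=
        Finset.sum_le_sum fun j _ => hk i j j a M ha haK hM0 hM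
    _ = n * ε k * M := by
        rw [Finset.sum_const, Finset.card_univ, Fintype.card_fin, nsmul_eq_mul]; ring

end Pool.Agent.H94.Stab
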